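import Pool.Agent.Q213.CLP.Neg

/-!
A unital positive linear isometry `H₂ → H₆` that is not a generalized CLP isometry.
-/

namespace Pool.Agent.Results.MP_2a866c_an.NotGeneralizedCLP

open Matrix ComplexConjugate Pool.Agent.Q213.CLP
open scoped MatrixOrder ComplexOrder Matrix.Norms.L2Operator

/-- Real eigenvalues and the real spectrum. -/
lemma mem_spectrum_iff {m : ℕ} (Y : Matrix (Fin m) (Fin m) ℂ) (r : ℝ) :
    r ∈ spectrum ℝ Y ↔ ∃ v : Fin m → ℂ, v ≠ 0 ∧ Y *ᵥ v = (r : ℂ) • v := by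
  rw [spectrum.mem_iff, isUnit_iff_isUnit_det, isUnit_iff_ne_zero, not_not,
    ← exists_mulVec_eq_zero_iff]
  have h : ∀ v : Fin m → ℂ, (algebraMap ℝ (Matrix (Fin m) (Fin m) ℂ) r - Y) *ᵥ v =
      (r : ℂ) • v - Y *ᵥ v := by
    intro v
    rw [sub_mulVec, Algebra.algebraMap_eq_smul_one, smul_mulVec, one_mulVec]
    rfl
  refine exists_congr fun v => and_congr_right fun _ => ?_
  rw [h, sub_eq_zero, eq_comm]

/-- A hermitian `2 × 2` matrix with eigenvector `h` is a scalar plus a multiple of the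
rank-one projection orthogonal to `h`. -/
lemma two_by_two {X : Matrix (Fin 2) (Fin 2) ℂ} (hX : X.IsHermitian) {h : Fin 2 → ℂ} (hh : h ≠ 0)
    {r : ℝ} (he : X *ᵥ h = (r : ℂ) • h) :
    ∃ c : ℝ, X = (r : ℂ) • 1 + (c : ℂ) • vecMulVec (perp h) (star (perp h)) := by
  have hN := norm_pos_of_ne hh
  obtain ⟨g0, hg0⟩ : ∃ g, g = conj (h 0) := ⟨_, rfl⟩
  obtain ⟨g1, hg1⟩ : ∃ g, g = conj (h 1) := ⟨_, rfl⟩
  have hNc : ((‖h 0‖ ^ 2 + ‖h 1‖ ^ 2 : ℝ) : ℂ) = h 0 * g0 + h 1 * g1 := by
    rw [hg0, hg1]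
    push_cast
    rw [← Complex.mul_conj', ← Complex.mul_conj']
  have hN0 : h 0 * g0 + h 1 * g1 ≠ 0 := by
    rw [← hNc]
    exact_mod_cast hN.ne'
  have hc0 : conj g0 = h 0 := by rw [hg0, Complex.conj_conj]
  have hc1 : conj g1 = h 1 := by rw [hg1, Complex.conj_conj]
  have a00 : conj (X 0 0) = X 0 0 := hX.apply 0 0
  have a11 : conj (X 1 1) = X 1 1 := hX.apply 1 1
  have a01 : conj (X 0 1) = X 1 0 := hX.apply 1 0
  have a10 : conj (X 1 0) = X 0 1 := hX.apply 0 1
  have E1 : (X 0 0 - r) * h 0 + X 0 1 * h 1 = 0 := by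
    have := congrFun he 0
    simp [mulVec, dotProduct, Fin.sum_univ_two] at this
    linear_combination this
  have E2 : X 1 0 * h 0 + (X 1 1 - r) * h 1 = 0 := by
    have := congrFun he 1
    simp [mulVec, dotProduct, Fin.sum_univ_two] at this
    linear_combination this
  have E3 : (X 0 0 - r) * g0 + X 1 0 * g1 = 0 := by
    have := congrArg conj E1
    simp only [map_add, map_mul, map_sub, map_zero, Complex.conj_ofReal, a00, a01, ← hg0,
      ← hg1] at this
    exact this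
  have E4 : X 0 1 * g0 + (X 1 1 - r) * g1 = 0 := by
    have := congrArg conj E2
    simp only [map_add, map_mul, map_sub, map_zero, Complex.conj_ofReal, a11, a10, ← hg0,
      ← hg1] at this
    exact this
  have r00 : ((X 0 0).re : ℂ) = X 0 0 := Complex.conj_eq_iff_re.1 a00
  have r11 : ((X 1 1).re : ℂ) = X 1 1 := Complex.conj_eq_iff_re.1 a11
  refine ⟨((X 0 0).re + (X 1 1).re - 2 * r) / (‖h 0‖ ^ 2 + ‖h 1‖ ^ 2), ?_⟩
  have hc : (((((X 0 0).re + (X 1 1).re - 2 * r) / (‖h 0‖ ^ 2 + ‖h 1‖ ^ 2) : ℝ)) : ℂ) =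
      (X 0 0 + X 1 1 - 2 * r) / (h 0 * g0 + h 1 * g1) := by
    rw [Complex.ofReal_div, hNc]
    push_cast
    rw [r00, r11]
  rw [hc]
  ext i j
  rw [Matrix.add_apply, Matrix.smul_apply, Matrix.smul_apply, vecMulVec_apply]
  fin_cases i <;> fin_cases j
  · simp [perp, ← hg0, ← hg1, hc1]
    field_simp
    linear_combination g0 * E1 - h 1 * E4
  · simp [perp, ← hg0, ← hg1, hc0]
    field_simp
    linear_combination g1 * E1 + h 0 * E4
  · simp [perp, ← hg0, ← hg1, hc1]
    field_simp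
    linear_combination g0 * E2 + h 1 * E3
  · simp [perp, ← hg0, ← hg1, hc0]
    field_simp
    linear_combination -g0 * E1 + h 1 * E4

/-- There is a unital positive linear isometry `H₂ → H₆` that is not a generalized CLP
isometry. -/
theorem result : ∃ Φ : Matrix (Fin 2) (Fin 2) ℂ → Matrix (Fin 6) (Fin 6) ℂ,
    IsUnitalPositive Φ ∧ IsIsometric Φ ∧ ¬ IsGeneralizedCLP Φ := by
  obtain ⟨S, hS, hS1⟩ := exists_norm
  have hdet : IsUnit S.det := (isUnit_iff_isUnit_det _).1 hS
  have hSS : S * S⁻¹ = 1 := mul_nonsing_inv _ hdet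
  have hSS' : S⁻¹ * S = 1 := nonsing_inv_mul _ hdet
  have hSh : S⁻¹ᴴ * Sᴴ = 1 := by rw [← conjTranspose_mul, hSS, conjTranspose_one]
  have hadd : ∀ X Y, Sᴴ * Phi0 (X + Y) * S = Sᴴ * Phi0 X * S + Sᴴ * Phi0 Y * S := by
    intro X Y
    rw [Phi0_add, Matrix.mul_add, Matrix.add_mul]
  have hsmul : ∀ (c : ℂ) X, Sᴴ * Phi0 (c • X) * S = c • (Sᴴ * Phi0 X * S) := by
    intro c X
    rw [Phi0_smul, Matrix.mul_smul, Matrix.smul_mul]
  have hherm : ∀ X : Matrix (Fin 2) (Fin 2) ℂ, X.IsHermitian →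
      (Sᴴ * Phi0 X * S).IsHermitian := by
    intro X hX
    rw [IsHermitian, conjTranspose_mul, conjTranspose_mul, conjTranspose_conjTranspose,
      Phi0_conjTranspose, hX, Matrix.mul_assoc]
  have hup : IsUnitalPositive (fun X => Sᴴ * Phi0 X * S) := by
    refine ⟨hherm, fun X Y _ _ => hadd X Y, fun c X _ => ?_, hS1, fun X hX => ?_⟩
    · have : (c • X : Matrix (Fin 2) (Fin 2) ℂ) = (c : ℂ) • X := rfl
      rw [this, hsmul]
      rfl
    · exact (Phi0_pos hX).conjTranspose_mul_mul_same S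
  refine ⟨fun X => Sᴴ * Phi0 X * S, hup, ?_, ?_⟩
  · -- isometry
    intro X hX
    refine le_antisymm ?_ ?_
    · -- contractive
      have hsa : IsSelfAdjoint (Sᴴ * Phi0 X * S) := hherm X hX
      have hsX : IsSelfAdjoint X := hX
      have key : ∀ μ : ℝ, μ ∈ spectrum ℝ (Sᴴ * Phi0 X * S) → |μ| ≤ ‖X‖ := by
        intro μ hμ
        obtain ⟨v, hv, hv2⟩ := (mem_spectrum_iff _ _).1 hμ
        have hvpos : 0 < star v ⬝ᵥ v := dotProduct_star_self_pos_iff.2 hv
        have p1 : (((‖X‖ : ℝ) : ℂ) • (1 : Matrix (Fin 2) (Fin 2) ℂ) - X).PosSemidef := by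
          have := hsX.le_algebraMap_norm_self
          rw [Matrix.le_iff, Algebra.algebraMap_eq_smul_one] at this
          exact this
        have p2 : (((‖X‖ : ℝ) : ℂ) • (1 : Matrix (Fin 2) (Fin 2) ℂ) + X).PosSemidef := by
          have := hsX.neg_algebraMap_norm_le_self
          rw [Matrix.le_iff, Algebra.algebraMap_eq_smul_one, sub_neg_eq_add, add_comm] at this
          exact this
        have q1 := (hup.pos _ p1).dotProduct_mulVec_nonneg v
        have q2 := (hup.pos _ p2).dotProduct_mulVec_nonneg v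
        have e1 : Sᴴ * Phi0 (((‖X‖ : ℝ) : ℂ) • (1 : Matrix (Fin 2) (Fin 2) ℂ) - X) * S =
            ((‖X‖ : ℝ) : ℂ) • (1 : Matrix (Fin 6) (Fin 6) ℂ) - Sᴴ * Phi0 X * S := by
          have : (((‖X‖ : ℝ) : ℂ) • (1 : Matrix (Fin 2) (Fin 2) ℂ) - X) =
              ((‖X‖ : ℝ) : ℂ) • (1 : Matrix (Fin 2) (Fin 2) ℂ) + (-1 : ℂ) • X := by
            rw [neg_one_smul, sub_eq_add_neg]
          rw [this, hadd, hsmul, hsmul, hS1, neg_one_smul, sub_eq_add_neg]
        have e2 : Sᴴ * Phi0 (((‖X‖ : ℝ) : ℂ) • (1 : Matrix (Fin 2) (Fin 2) ℂ) + X) * S =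
            ((‖X‖ : ℝ) : ℂ) • (1 : Matrix (Fin 6) (Fin 6) ℂ) + Sᴴ * Phi0 X * S := by
          rw [hadd, hsmul, hS1]
        rw [e1, sub_mulVec, smul_mulVec, one_mulVec, hv2, dotProduct_sub, dotProduct_smul,
          dotProduct_smul, ← sub_smul, smul_eq_mul] at q1
        rw [e2, add_mulVec, smul_mulVec, one_mulVec, hv2, dotProduct_add, dotProduct_smul,
          dotProduct_smul, ← add_smul, smul_eq_mul] at q2
        obtain ⟨d, hd⟩ : ∃ d : ℝ, star v ⬝ᵥ v = (d : ℂ) :=
          ⟨(star v ⬝ᵥ v).re, Complex.ext rfl (by simpa using (Complex.pos_iff.1 hvpos).2.symm)⟩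
        rw [hd] at hvpos q1 q2
        have hd0 : 0 < d := by exact_mod_cast hvpos
        have s1 : 0 ≤ (‖X‖ - μ) * d := by exact_mod_cast q1
        have s2 : 0 ≤ (‖X‖ + μ) * d := by exact_mod_cast q2
        have t1 : 0 ≤ ‖X‖ - μ := nonneg_of_mul_nonneg_left s1 hd0
        have t2 : 0 ≤ ‖X‖ + μ := nonneg_of_mul_nonneg_left s2 hd0
        exact abs_le.2 ⟨by linarith, by linarith⟩
      rcases CStarAlgebra.norm_or_neg_norm_mem_spectrum hsa with h | h
      · have := key _ h
        rwa [abs_of_nonneg (norm_nonneg _)] at this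
      · have := key _ h
        rwa [abs_neg, abs_of_nonneg (norm_nonneg _)] at this
    · -- expansive
      have hsX : IsSelfAdjoint X := hX
      have key : ∀ μ : ℝ, μ ∈ spectrum ℝ X → |μ| ≤ ‖Sᴴ * Phi0 X * S‖ := by
        intro μ hμ
        obtain ⟨h, hh, he⟩ := (mem_spectrum_iff _ _).1 hμ
        obtain ⟨c, hc⟩ := two_by_two hX hh he
        have hxi : xi h ≠ 0 := by
          intro h0
          apply hh
          have z0 := congrFun h0 0
          have z5 := congrFun h0 5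
          simp [xi] at z0 z5
          funext i
          fin_cases i
          · exact z0
          · exact z5
        have hmem : μ ∈ spectrum ℝ (Sᴴ * Phi0 X * S) := by
          rw [mem_spectrum_iff]
          refine ⟨S⁻¹ *ᵥ xi h, ?_, ?_⟩
          · intro h0
            apply hxi
            have := congrArg (fun v => S *ᵥ v) h0
            simp only [mulVec_mulVec, hSS, one_mulVec, mulVec_zero] at this
            exact this
          · have e1 : Sᴴ * Phi0 X * S = (μ : ℂ) • (1 : Matrix (Fin 6) (Fin 6) ℂ) +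
                (c : ℂ) • (Sᴴ * Phi0 (vecMulVec (perp h) (star (perp h))) * S) := by
              rw [hc, hadd, hsmul, hsmul, hS1]
            rw [e1, add_mulVec, smul_mulVec, smul_mulVec, one_mulVec, mulVec_mulVec,
              Matrix.mul_assoc, hSS, Matrix.mul_one, ← mulVec_mulVec, Phi0_ker, mulVec_zero,
              smul_zero, add_zero]
        exact spectrum.norm_le_norm_of_mem hmem
      rcases CStarAlgebra.norm_or_neg_norm_mem_spectrum hsX with h | h
      · have := key _ h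
        rwa [abs_of_nonneg (norm_nonneg _)] at this
      · have := key _ h
        rwa [abs_neg, abs_of_nonneg (norm_nonneg _)] at this
  · -- not of generalized CLP form
    rintro ⟨α, β, ζ, f, V, -, -, hfib, hform⟩
    refine no_form (W := V * S⁻¹) (f := f) ?_ ?_
    · intro X hX
      have h1 := hform X hX
      simp only at h1
      have h2 : Phi0 X = S⁻¹ᴴ * (Sᴴ * Phi0 X * S) * S⁻¹ := by
        calc Phi0 X = (S⁻¹ᴴ * Sᴴ) * Phi0 X * (S * S⁻¹) := by
              rw [hSh, hSS, Matrix.one_mul, Matrix.mul_one]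
          _ = _ := by simp only [Matrix.mul_assoc]
      rw [h2, h1, conjTranspose_mul]
      simp only [Matrix.mul_assoc]
    · intro h hh
      obtain ⟨h₁, h₂, w, hw, hV⟩ := hfib h hh
      refine ⟨h₁, h₂, S *ᵥ w, ?_, ?_⟩
      · intro h0
        apply hw
        have := congrArg (fun v => S⁻¹ *ᵥ v) h0
        simp only [mulVec_mulVec, hSS', one_mulVec, mulVec_zero] at this
        exact this
      · rw [mulVec_mulVec, Matrix.mul_assoc, hSS', Matrix.mul_one, hV]

end Pool.Agent.Results.MP_2a866c_an.NotGeneralizedCLP
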